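import Mathlib

/-!
A small structured stack-program language over registers `ℕ → List Bool`, with a big-step
timed semantics, and its compilation to Mathlib's `Turing.FinTM2` machines.
-/

namespace Pool.Agent.Lib.PolyTime

/-- Structured stack programs. Registers are numbered by `ℕ` and hold bit lists. -/
inductive Prog : Type
  | skip : Prog
  | push : ℕ → Bool → Prog
  | pop : ℕ → Prog
  | cases : ℕ → Prog → Prog → Prog → Prog
  | seq : Prog → Prog → Prog
  | loop : ℕ → Prog → Prog

/-- Register contents. -/
abbrev Regs := ℕ → List Bool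

/-- `Run P S S' n`: program `P` started on registers `S` ends with registers `S'` after
exactly `n` machine steps. -/
inductive Run : Prog → Regs → Regs → ℕ → Prop
  | skip (S : Regs) : Run Prog.skip S S 1
  | push (S : Regs) (r : ℕ) (b : Bool) :
      Run (Prog.push r b) S (Function.update S r (b :: S r)) 1
  | pop (S : Regs) (r : ℕ) :
      Run (Prog.pop r) S (Function.update S r (S r).tail) 1
  | casesNil {r : ℕ} {P Q R : Prog} {S S' : Regs} {n : ℕ} (h : S r = [])
      (hr : Run P S S' n) : Run (Prog.cases r P Q R) S S' (n + 1)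
  | casesFalse {r : ℕ} {P Q R : Prog} {S S' : Regs} {n : ℕ} {l : List Bool}
      (h : S r = false :: l) (hr : Run Q S S' n) : Run (Prog.cases r P Q R) S S' (n + 1)
  | casesTrue {r : ℕ} {P Q R : Prog} {S S' : Regs} {n : ℕ} {l : List Bool}
      (h : S r = true :: l) (hr : Run R S S' n) : Run (Prog.cases r P Q R) S S' (n + 1)
  | seq {P Q : Prog} {S S' S'' : Regs} {n m : ℕ} (h1 : Run P S S' n) (h2 : Run Q S' S'' m) :
      Run (Prog.seq P Q) S S'' (n + m)
  | loopNil {r : ℕ} {P : Prog} {S : Regs} (h : S r = []) : Run (Prog.loop r P) S S 1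
  | loopCons {r : ℕ} {P : Prog} {S S' S'' : Regs} {n m : ℕ} (h : S r ≠ [])
      (h1 : Run P S S' n) (h2 : Run (Prog.loop r P) S' S'' m) :
      Run (Prog.loop r P) S S'' (n + m + 1)

/-- All registers mentioned by the program are `< N`. -/
def Prog.Below (N : ℕ) : Prog → Prop
  | .skip => True
  | .push r _ => r < N
  | .pop r => r < N
  | .cases r P Q R => r < N ∧ P.Below N ∧ Q.Below N ∧ R.Below N
  | .seq P Q => P.Below N ∧ Q.Below N
  | .loop r P => r < N ∧ P.Below N

/-- A bound on the registers mentioned. -/
def Prog.regs : Prog → ℕ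
  | .skip => 0
  | .push r _ => r + 1
  | .pop r => r + 1
  | .cases r P Q R => max (r + 1) (max P.regs (max Q.regs R.regs))
  | .seq P Q => max P.regs Q.regs
  | .loop r P => max (r + 1) P.regs

theorem Prog.below_of_le {P : Prog} : ∀ {N : ℕ}, P.regs ≤ N → P.Below N := by
  induction P with
  | skip => intro N _; trivial
  | push r b => intro N h; exact h
  | pop r => intro N h; exact h
  | cases r P Q R ihP ihQ ihR =>
    intro N h
    simp only [Prog.regs, max_le_iff] at h
    exact ⟨h.1, ihP h.2.1, ihQ h.2.2.1, ihR h.2.2.2⟩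
  | seq P Q ihP ihQ =>
    intro N h
    simp only [Prog.regs, max_le_iff] at h
    exact ⟨ihP h.1, ihQ h.2⟩
  | loop r P ih =>
    intro N h
    simp only [Prog.regs, max_le_iff] at h
    exact ⟨h.1, ih h.2⟩

/-- Output lengths grow by at most the running time. -/
theorem Run.length_le {P : Prog} {S S' : Regs} {n : ℕ} (h : Run P S S' n) (r : ℕ) :
    (S' r).length ≤ (S r).length + n := by
  induction h with
  | skip => omega
  | push S r' b =>
    by_cases h : r = r'
    · subst h; simp
    · simp [Function.update_of_ne h]
  | pop S r' =>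
    by_cases h : r = r'
    · subst h
      rw [Function.update_self, List.length_tail]
      omega
    · simp [Function.update_of_ne h]
  | casesNil _ _ ih => omega
  | casesFalse _ _ ih => omega
  | casesTrue _ _ ih => omega
  | seq _ _ ih1 ih2 => omega
  | loopNil _ => omega
  | loopCons _ _ _ ih1 ih2 => omega

/-! ### Renaming of registers -/

/-- Rename registers. -/
def Prog.rename (ρ : ℕ → ℕ) : Prog → Prog
  | .skip => .skip
  | .push r b => .push (ρ r) b
  | .pop r => .pop (ρ r)
  | .cases r P Q R => .cases (ρ r) (P.rename ρ) (Q.rename ρ) (R.rename ρ)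
  | .seq P Q => .seq (P.rename ρ) (Q.rename ρ)
  | .loop r P => .loop (ρ r) (P.rename ρ)

/-- Running a renamed program. -/
theorem Run.rename {ρ : ℕ → ℕ} (hρ : Function.Injective ρ) {P : Prog} {S S' : Regs} {n : ℕ}
    (h : Run P S S' n) : ∀ T : Regs, (∀ i, T (ρ i) = S i) →
    ∃ T' : Regs, Run (P.rename ρ) T T' n ∧ (∀ i, T' (ρ i) = S' i) ∧
      ∀ j, (∀ i, ρ i ≠ j) → T' j = T j := by
  induction h with
  | skip S => intro T hT; exact ⟨T, Run.skip T, hT, fun _ _ => rfl⟩
  | push S r b =>
    intro T hT
    refine ⟨_, Run.push T (ρ r) b, ?_, ?_⟩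
    · intro i
      by_cases h : i = r
      · subst h; simp [hT]
      · rw [Function.update_of_ne h, Function.update_of_ne (fun e => h (hρ e)), hT]
    · intro j hj
      rw [Function.update_of_ne (fun e => hj r e.symm)]
  | pop S r =>
    intro T hT
    refine ⟨_, Run.pop T (ρ r), ?_, ?_⟩
    · intro i
      by_cases h : i = r
      · subst h; simp [hT]
      · rw [Function.update_of_ne h, Function.update_of_ne (fun e => h (hρ e)), hT]
    · intro j hj
      rw [Function.update_of_ne (fun e => hj r e.symm)]
  | casesNil h _ ih =>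
    intro T hT
    obtain ⟨T', h1, h2, h3⟩ := ih T hT
    exact ⟨T', Run.casesNil (by rw [hT, h]) h1, h2, h3⟩
  | casesFalse h _ ih =>
    intro T hT
    obtain ⟨T', h1, h2, h3⟩ := ih T hT
    exact ⟨T', Run.casesFalse (by rw [hT, h]) h1, h2, h3⟩
  | casesTrue h _ ih =>
    intro T hT
    obtain ⟨T', h1, h2, h3⟩ := ih T hT
    exact ⟨T', Run.casesTrue (by rw [hT, h]) h1, h2, h3⟩
  | seq _ _ ih1 ih2 =>
    intro T hT
    obtain ⟨T', h1, h2, h3⟩ := ih1 T hT
    obtain ⟨T'', k1, k2, k3⟩ := ih2 T' h2
    exact ⟨T'', Run.seq h1 k1, k2, fun j hj => (k3 j hj).trans (h3 j hj)⟩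
  | loopNil h =>
    intro T hT
    exact ⟨T, Run.loopNil (by rw [hT, h]), hT, fun _ _ => rfl⟩
  | loopCons h _ _ ih1 ih2 =>
    intro T hT
    obtain ⟨T', h1, h2, h3⟩ := ih1 T hT
    obtain ⟨T'', k1, k2, k3⟩ := ih2 T' h2
    exact ⟨T'', Run.loopCons (by rw [hT]; exact h) h1 k1, k2,
      fun j hj => (k3 j hj).trans (h3 j hj)⟩

/-! ### Compilation to `Turing.TM2` -/

/-- Control labels of a program. -/
def Lab : Prog → Type
  | .skip => Unit
  | .push _ _ => Unit
  | .pop _ => Unit
  | .cases _ P Q R => Option (Lab P ⊕ (Lab Q ⊕ Lab R))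
  | .seq P Q => Lab P ⊕ Lab Q
  | .loop _ P => Option (Lab P)

/-- The entry label. -/
def entry : (P : Prog) → Lab P
  | .skip => ()
  | .push _ _ => ()
  | .pop _ => ()
  | .cases _ _ _ _ => none
  | .seq P _ => Sum.inl (entry P)
  | .loop _ _ => none

instance instFintypeLab : (P : Prog) → Fintype (Lab P)
  | .skip => inferInstanceAs (Fintype Unit)
  | .push _ _ => inferInstanceAs (Fintype Unit)
  | .pop _ => inferInstanceAs (Fintype Unit)
  | .cases _ P Q R =>
    letI := instFintypeLab P
    letI := instFintypeLab Q
    letI := instFintypeLab R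
    inferInstanceAs (Fintype (Option (Lab P ⊕ (Lab Q ⊕ Lab R))))
  | .seq P Q =>
    letI := instFintypeLab P
    letI := instFintypeLab Q
    inferInstanceAs (Fintype (Lab P ⊕ Lab Q))
  | .loop _ P =>
    letI := instFintypeLab P
    inferInstanceAs (Fintype (Option (Lab P)))

open Turing

/-- The statement executed at each label; `κ` maps register numbers to stacks. -/
def code {K Λ : Type} (κ : ℕ → K) : (P : Prog) → (Lab P → Λ) → Λ → Lab P →
    TM2.Stmt (fun _ : K => Bool) Λ (Option Bool)
  | .skip, _, ex, _ => .goto fun _ => ex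
  | .push r b, _, ex, _ => .push (κ r) (fun _ => b) (.goto fun _ => ex)
  | .pop r, _, ex, _ => .pop (κ r) (fun s _ => s) (.goto fun _ => ex)
  | .cases r P Q R, emb, ex, l =>
    match l with
    | none => .peek (κ r) (fun _ o => o)
        (.goto fun o => match o with
          | none => emb (some (Sum.inl (entry P)))
          | some false => emb (some (Sum.inr (Sum.inl (entry Q))))
          | some true => emb (some (Sum.inr (Sum.inr (entry R)))))
    | some (Sum.inl l) => code κ P (fun l => emb (some (Sum.inl l))) ex l
    | some (Sum.inr (Sum.inl l)) => code κ Q (fun l => emb (some (Sum.inr (Sum.inl l)))) ex l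
    | some (Sum.inr (Sum.inr l)) => code κ R (fun l => emb (some (Sum.inr (Sum.inr l)))) ex l
  | .seq P Q, emb, ex, l =>
    match l with
    | Sum.inl l => code κ P (fun l => emb (Sum.inl l)) (emb (Sum.inr (entry Q))) l
    | Sum.inr l => code κ Q (fun l => emb (Sum.inr l)) ex l
  | .loop r P, emb, ex, l =>
    match l with
    | none => .peek (κ r) (fun _ o => o)
        (.goto fun o => match o with
          | none => ex
          | some _ => emb (some (entry P)))
    | some l => code κ P (fun l => emb (some l)) (emb none) l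

/-- `n`-fold iteration of the TM2 step function. -/
def Steps {K Λ : Type} [DecidableEq K] (M : Λ → TM2.Stmt (fun _ : K => Bool) Λ (Option Bool))
    (n : ℕ) (c : TM2.Cfg (fun _ : K => Bool) Λ (Option Bool))
    (d : TM2.Cfg (fun _ : K => Bool) Λ (Option Bool)) : Prop :=
  (flip bind (TM2.step M))^[n] (some c) = some d

theorem Steps.trans {K Λ : Type} [DecidableEq K]
    {M : Λ → TM2.Stmt (fun _ : K => Bool) Λ (Option Bool)} {n m : ℕ}
    {c d e : TM2.Cfg (fun _ : K => Bool) Λ (Option Bool)}
    (h1 : Steps M n c d) (h2 : Steps M m d e) : Steps M (n + m) c e := by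
  unfold Steps at *
  rw [Nat.add_comm, Function.iterate_add_apply, h1, h2]

theorem Steps.one {K Λ : Type} [DecidableEq K]
    {M : Λ → TM2.Stmt (fun _ : K => Bool) Λ (Option Bool)}
    {c d : TM2.Cfg (fun _ : K => Bool) Λ (Option Bool)}
    (h : TM2.step M c = some d) : Steps M 1 c d := by
  unfold Steps
  simp [flip, h]

/-- Stack contents corresponding to register contents. -/
def toStk (N : ℕ) (S : Regs) : Fin N → List Bool := fun k => S k

/-- Map registers to `Fin (N+1)`. -/
def clampReg (N : ℕ) (r : ℕ) : Fin (N + 1) := ⟨min r N, by omega⟩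

theorem clampReg_val {N r : ℕ} (h : r < N + 1) : (clampReg N r : ℕ) = r := by
  simp only [clampReg]; omega

theorem toStk_update {N r : ℕ} (h : r < N + 1) (S : Regs) (l : List Bool) :
    toStk (N + 1) (Function.update S r l) =
      Function.update (toStk (N + 1) S) (clampReg N r) l := by
  funext k
  by_cases hk : k = clampReg N r
  · subst hk
    rw [Function.update_self]
    simp only [toStk, clampReg_val h, Function.update_self]
  · rw [Function.update_of_ne hk]
    simp only [toStk]
    rw [Function.update_of_ne]
    intro e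
    apply hk
    apply Fin.ext
    rw [clampReg_val h, e]

theorem toStk_clamp {N r : ℕ} (h : r < N + 1) (S : Regs) :
    toStk (N + 1) S (clampReg N r) = S r := by
  simp only [toStk, clampReg_val h]

/-- Simulation of a program by the compiled machine. -/
theorem Run.sim {N : ℕ} {Λ : Type}
    {M : Λ → TM2.Stmt (fun _ : Fin (N + 1) => Bool) Λ (Option Bool)}
    {P : Prog} {S S' : Regs} {n : ℕ} (h : Run P S S' n) :
    ∀ (emb : Lab P → Λ) (ex : Λ), P.Below (N + 1) →
      (∀ l, M (emb l) = code (clampReg N) P emb ex l) →
      ∀ v : Option Bool, ∃ v' : Option Bool,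
        Steps M n ⟨some (emb (entry P)), v, toStk (N + 1) S⟩ ⟨some ex, v', toStk (N + 1) S'⟩ := by
  induction h with
  | skip S =>
    intro emb ex _ hM v
    refine ⟨v, Steps.one ?_⟩
    have := hM ()
    simp only [entry, TM2.step, this, code, TM2.stepAux]
  | push S r b =>
    intro emb ex hb hM v
    refine ⟨v, Steps.one ?_⟩
    have := hM ()
    simp only [entry, TM2.step, this, code, TM2.stepAux]
    rw [toStk_clamp hb, toStk_update hb]
  | pop S r =>
    intro emb ex hb hM v
    refine ⟨v, Steps.one ?_⟩
    have := hM ()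
    simp only [entry, TM2.step, this, code, TM2.stepAux]
    rw [toStk_clamp hb, toStk_update hb]
  | @casesNil r P Q R S S' n h _ ih =>
    intro emb ex hb hM v
    obtain ⟨v', hv'⟩ := ih (fun l => emb (some (Sum.inl l))) ex hb.2.1
      (fun l => by rw [hM (some (Sum.inl l))]; simp only [code]) none
    refine ⟨v', ?_⟩
    rw [Nat.add_comm n 1]
    refine Steps.trans (Steps.one ?_) hv'
    have := hM none
    simp only [entry, TM2.step, this, code, TM2.stepAux]
    rw [toStk_clamp hb.1, h]
    rfl
  | @casesFalse r P Q R S S' n l h _ ih =>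
    intro emb ex hb hM v
    obtain ⟨v', hv'⟩ := ih (fun l => emb (some (Sum.inr (Sum.inl l)))) ex hb.2.2.1
      (fun l => by rw [hM (some (Sum.inr (Sum.inl l)))]; simp only [code]) (some false)
    refine ⟨v', ?_⟩
    rw [Nat.add_comm n 1]
    refine Steps.trans (Steps.one ?_) hv'
    have := hM none
    simp only [entry, TM2.step, this, code, TM2.stepAux]
    rw [toStk_clamp hb.1, h]
    rfl
  | @casesTrue r P Q R S S' n l h _ ih =>
    intro emb ex hb hM v
    obtain ⟨v', hv'⟩ := ih (fun l => emb (some (Sum.inr (Sum.inr l)))) ex hb.2.2.2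
      (fun l => by rw [hM (some (Sum.inr (Sum.inr l)))]; simp only [code]) (some true)
    refine ⟨v', ?_⟩
    rw [Nat.add_comm n 1]
    refine Steps.trans (Steps.one ?_) hv'
    have := hM none
    simp only [entry, TM2.step, this, code, TM2.stepAux]
    rw [toStk_clamp hb.1, h]
    rfl
  | @seq P Q S S' S'' n m _ _ ih1 ih2 =>
    intro emb ex hb hM v
    obtain ⟨v1, h1⟩ := ih1 (fun l => emb (Sum.inl l)) (emb (Sum.inr (entry Q))) hb.1
      (fun l => by rw [hM (Sum.inl l)]; simp only [code]) v
    obtain ⟨v2, h2⟩ := ih2 (fun l => emb (Sum.inr l)) ex hb.2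
      (fun l => by rw [hM (Sum.inr l)]; simp only [code]) v1
    exact ⟨v2, Steps.trans h1 h2⟩
  | @loopNil r P S h =>
    intro emb ex hb hM v
    refine ⟨none, Steps.one ?_⟩
    have := hM none
    simp only [entry, TM2.step, this, code, TM2.stepAux]
    rw [toStk_clamp hb.1, h]
    rfl
  | @loopCons r P S S' S'' n m h _ _ ih1 ih2 =>
    intro emb ex hb hM v
    obtain ⟨b, l, hbl⟩ := List.exists_cons_of_ne_nil h
    obtain ⟨v1, h1⟩ := ih1 (fun l => emb (some l)) (emb none) hb.2
      (fun l => by rw [hM (some l)]; simp only [code]) (some b)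
    obtain ⟨v2, h2⟩ := ih2 emb ex hb hM v1
    refine ⟨v2, ?_⟩
    have h0 : Steps M 1 ⟨some (emb (entry (Prog.loop r P))), v, toStk (N + 1) S⟩
        ⟨some (emb (some (entry P))), some b, toStk (N + 1) S⟩ := by
      refine Steps.one ?_
      have := hM none
      simp only [entry, TM2.step, this, code, TM2.stepAux]
      rw [toStk_clamp hb.1, hbl]
      rfl
    have := Steps.trans h0 (Steps.trans h1 h2)
    rwa [show 1 + (n + m) = n + m + 1 by omega] at this

/-- The compiled machine: input on stack `0`, output on stack `1`. -/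
def machine (P : Prog) : FinTM2 where
  K := Fin (max P.regs 1 + 1)
  k₀ := clampReg _ 0
  k₁ := clampReg _ 1
  Γ := fun _ => Bool
  Λ := Option (Lab P)
  main := some (entry P)
  σ := Option Bool
  initialState := none
  Γk₀Fin := inferInstanceAs (Fintype Bool)
  m := fun l => match l with
    | some l => code (clampReg (max P.regs 1)) P some none l
    | none => .load (fun _ => none) .halt

/-- Registers with the input in register `0` and everything else empty. -/
def inputRegs (l : List Bool) : Regs := Function.update (fun _ => []) 0 l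

/-- Registers with the output in register `1` and everything else empty. -/
def outputRegs (l : List Bool) : Regs := Function.update (fun _ => []) 1 l

theorem machine_outputs (P : Prog) (l l' : List Bool) (n : ℕ)
    (h : Run P (inputRegs l) (outputRegs l') n) :
    Nonempty (TM2OutputsInTime (machine P) l (some l') (n + 1)) := by
  have hb : P.Below (max P.regs 1 + 1) := Prog.below_of_le (by omega)
  obtain ⟨v', hv'⟩ := h.sim (N := max P.regs 1) (M := (machine P).m) some none hb
    (fun l => rfl) none
  have hfin : Steps (machine P).m 1 ⟨some none, v', toStk _ (outputRegs l')⟩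
      ⟨none, none, toStk _ (outputRegs l')⟩ := Steps.one rfl
  have hall := hv'.trans hfin
  have e1 : initList (machine P) l =
      ⟨some (some (entry P)), none, toStk (max P.regs 1 + 1) (inputRegs l)⟩ := by
    unfold initList
    congr 1
    funext k
    by_cases hk : k = (machine P).k₀
    · subst hk
      simp only [dite_true]
      change l = toStk _ _ (clampReg (max P.regs 1) 0)
      rw [toStk_clamp (by omega)]
      simp [inputRegs]
    · rw [dif_neg hk]
      have hk0 : (show Fin (max P.regs 1 + 1) from k).val ≠ 0 := by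
        intro e
        apply hk
        apply Fin.ext
        rw [e]
        exact (clampReg_val (by omega)).symm
      exact (Function.update_of_ne hk0 l (fun _ => [])).symm
  have e2 : haltList (machine P) l' =
      ⟨none, none, toStk (max P.regs 1 + 1) (outputRegs l')⟩ := by
    unfold haltList
    congr 1
    funext k
    by_cases hk : k = (machine P).k₁
    · subst hk
      simp only [dite_true]
      change l' = toStk _ _ (clampReg (max P.regs 1) 1)
      rw [toStk_clamp (by omega)]
      simp [outputRegs]
    · rw [dif_neg hk]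
      have hk1 : (show Fin (max P.regs 1 + 1) from k).val ≠ 1 := by
        intro e
        apply hk
        apply Fin.ext
        rw [e]
        exact (clampReg_val (by omega)).symm
      exact (Function.update_of_ne hk1 l' (fun _ => [])).symm
  refine ⟨⟨⟨n + 1, ?_⟩, le_refl _⟩⟩
  change (flip bind (TM2.step (machine P).m))^[n + 1] (some (initList (machine P) l)) =
    some (haltList (machine P) l')
  rw [e1, e2]
  exact hall

end Pool.Agent.Lib.PolyTime
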